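import Mathlib

/-!
A ring `R` and a group of units `N` having primary jacket matrices of every admissible width, for
infinitely many orders.
-/

namespace Pool.Agent.Results.MP_522cd8_co.AllWidths

open Matrix

section Defs

variable {R : Type} [Ring R]

/-- The matrix over `R` underlying a matrix of units. -/
def toR {v : ℕ} (M : Matrix (Fin v) (Fin v) Rˣ) : Matrix (Fin v) (Fin v) R :=
  Matrix.of fun i j => ((M i j : Rˣ) : R)

/-- The matrix `M*` with entries `m_{ji}⁻¹`. -/
def conjInv {v : ℕ} (M : Matrix (Fin v) (Fin v) Rˣ) : Matrix (Fin v) (Fin v) Rˣ :=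
  Matrix.of fun i j => (M j i)⁻¹

/-- `M` is a `GBH(N,v)` matrix. -/
def IsGBH (N : Subgroup Rˣ) {v : ℕ} (M : Matrix (Fin v) (Fin v) Rˣ) : Prop :=
  2 ≤ v ∧ ¬ (ringChar R ∣ v) ∧ (∀ i j, M i j ∈ N) ∧
    toR M * toR (conjInv M) = (v : R) • (1 : Matrix (Fin v) (Fin v) R) ∧
    toR (conjInv M) * toR M = (v : R) • (1 : Matrix (Fin v) (Fin v) R)

/-- The first row and the first column consist of ones. -/
def IsNormalised {v : ℕ} (M : Matrix (Fin v) (Fin v) Rˣ) : Prop :=
  ∀ i j : Fin v, (i.val = 0 ∨ j.val = 0) → M i j = 1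

/-- `K` is permutation equivalent to a matrix whose first row and column are all ones and
whose rows and columns with (one-based) indices `1,…,m` and `v-m+1,…,v` are entirely `±1`. -/
def HasForm {v : ℕ} (K : Matrix (Fin v) (Fin v) Rˣ) (m : ℕ) : Prop :=
  ∃ σ τ : Equiv.Perm (Fin v), IsNormalised (Matrix.of fun i j => K (σ i) (τ j)) ∧
    ∀ i j : Fin v, (i.val < m ∨ v - m ≤ i.val ∨ j.val < m ∨ v - m ≤ j.val) →
      (K (σ i) (τ j) = 1 ∨ K (σ i) (τ j) = -1)

/-- `K` is a jacket matrix with entries in `N`. -/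
def IsJacket (N : Subgroup Rˣ) {v : ℕ} (K : Matrix (Fin v) (Fin v) Rˣ) : Prop :=
  IsGBH N K ∧ IsNormalised K ∧ HasForm K 1

/-- `w` is the jacket width of `K`. -/
def IsWidth {v : ℕ} (K : Matrix (Fin v) (Fin v) Rˣ) (w : ℕ) : Prop :=
  IsGreatest {m | 1 ≤ m ∧ 2 * m ≤ v ∧ HasForm K m} w

/-- `K` is not permutation equivalent to a Kronecker product of two jacket matrices. -/
def IsPrimary (N : Subgroup Rˣ) {v : ℕ} (K : Matrix (Fin v) (Fin v) Rˣ) : Prop :=
  ¬ ∃ (v₁ v₂ : ℕ) (K₁ : Matrix (Fin v₁) (Fin v₁) Rˣ) (K₂ : Matrix (Fin v₂) (Fin v₂) Rˣ)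
    (σ τ : Fin v ≃ Fin v₁ × Fin v₂), IsJacket N K₁ ∧ IsJacket N K₂ ∧
    ∀ i j, K i j = K₁ (σ i).1 (τ j).1 * K₂ (σ i).2 (τ j).2

end Defs

/-- `w` is admissible for `n`. -/
def Admissible (n w : ℕ) : Prop :=
  1 ≤ w ∧ (Even n → w ≤ n) ∧ (Odd n → w ≤ n - 1)

/-- Property (F): for infinitely many `n`, every admissible `w` is the jacket width of a primary
jacket matrix of order `2n` with entries in `N`. -/
def PropertyF (R : Type) [Ring R] (N : Subgroup Rˣ) : Prop :=
  {n : ℕ | ∀ w, Admissible n w → ∃ K : Matrix (Fin (2 * n)) (Fin (2 * n)) Rˣ,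
    IsJacket N K ∧ IsPrimary N K ∧ IsWidth K w}.Infinite

/-- sign in `ZMod 3` -/
def s (b : Bool) : ZMod 3 := if b then 1 else -1

theorem s_sq (b : Bool) : s b * s b = 1 := by cases b <;> decide

/-- the ring -/
abbrev R0 : Type := ZMod 3 × ZMod 3

/-- the four units -/
def u (p q : Bool) : R0ˣ :=
  ⟨(s p, s q), (s p, s q), by simp [s_sq], by simp [s_sq]⟩

theorem u_one_iff (p q : Bool) : u p q = 1 ↔ p = true ∧ q = true := by
  rw [Units.ext_iff]
  cases p <;> cases q <;> decide

theorem u_neg_iff (p q : Bool) : u p q = -1 ↔ p = false ∧ q = false := by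
  rw [Units.ext_iff]
  cases p <;> cases q <;> decide

/-- the involution: identity outside the middle block, reversal of the middle block -/
def inv {v : ℕ} (w : ℕ) (i : Fin v) : Fin v :=
  if w ≤ i.val ∧ i.val < v - w then ⟨v - 1 - i.val, by omega⟩ else i

theorem inv_inv {v : ℕ} (w : ℕ) (i : Fin v) : inv w (inv w i) = i := by
  unfold inv
  by_cases h : w ≤ i.val ∧ i.val < v - w
  · rw [if_pos h, if_pos]
    · ext
      simp only
      omega
    · simp only
      omega
  · rw [if_neg h, if_neg h]

theorem inv_eq_iff {v : ℕ} (w : ℕ) (i j : Fin v) : inv w i = j ↔ i = inv w j := by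
  constructor
  · intro h
    rw [← h, inv_inv]
  · intro h
    rw [h, inv_inv]

/-- sign pattern belonging to an involution `π` -/
def pat {v : ℕ} (π : Fin v → Fin v) (i j : Fin v) : Bool :=
  decide (i.val = 0 ∨ j.val = 0 ∨ π i = j)

/-- the matrix -/
def Kmat (v w : ℕ) : Matrix (Fin v) (Fin v) R0ˣ :=
  Matrix.of fun i j => u (pat id i j) (pat (inv w) i j)

theorem ortho {v : ℕ} (hv : (v : ZMod 3) = 1) (hv0 : 0 < v) (π : Fin v → Fin v)
    (hπ : ∀ i, π (π i) = i) (h0 : π ⟨0, hv0⟩ = ⟨0, hv0⟩) (i k : Fin v) :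
    ∑ j, s (pat π i j) * s (pat π k j) = if i = k then 1 else 0 := by
  set z : Fin v := ⟨0, hv0⟩ with hz
  have hval : ∀ i : Fin v, i.val = 0 ↔ i = z := by
    intro i
    rw [hz, Fin.ext_iff]
  have hinj : ∀ a b, π a = π b → a = b := by
    intro a b h
    rw [← hπ a, h, hπ]
  have f0 : ∀ j, s (pat π z j) = 1 := by
    intro j
    have : pat π z j = true := by simp [pat, hz]
    rw [this]
    rfl
  have f1 : ∀ i, i ≠ z → ∀ j, s (pat π i j) =
      -1 + (if j = z then (2 : ZMod 3) else 0) + (if j = π i then (2 : ZMod 3) else 0) := by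
    intro i hi j
    have hπi : π i ≠ z := by
      intro h
      apply hi
      apply hinj
      rw [h, h0]
    by_cases hj : j = z
    · have : pat π i j = true := by
        simp only [pat, decide_eq_true_eq]
        exact Or.inr (Or.inl ((hval j).2 hj))
      rw [this, if_pos hj, if_neg (fun h => hπi (h.symm.trans hj))]
      decide
    · by_cases hj2 : j = π i
      · have : pat π i j = true := by
          simp only [pat, decide_eq_true_eq]
          exact Or.inr (Or.inr hj2.symm)
        rw [this, if_neg hj, if_pos hj2]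
        decide
      · have : pat π i j = false := by
          simp only [pat, decide_eq_false_iff_not]
          rintro (h | h | h)
          · exact hi ((hval i).1 h)
          · exact hj ((hval j).1 h)
          · exact hj2 h.symm
        rw [this, if_neg hj, if_neg hj2]
        decide
  have rowsum : ∀ i, i ≠ z → ∑ j, s (pat π i j) = 0 := by
    intro i hi
    simp only [f1 i hi, Finset.sum_add_distrib, Finset.sum_ite_eq', Finset.mem_univ, if_true,
      Finset.sum_const, Finset.card_univ, Fintype.card_fin, nsmul_eq_mul, hv]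
    decide
  by_cases hi : i = z
  · by_cases hk : k = z
    · rw [hi, hk, if_pos rfl]
      simp [f0, hv]
    · rw [if_neg (fun h => hk (h.symm.trans hi)), hi]
      simp only [f0, one_mul]
      exact rowsum k hk
  · by_cases hk : k = z
    · rw [if_neg (fun h => hi (h.trans hk)), hk]
      simp only [f0, mul_one]
      exact rowsum i hi
    · have hπk : π k ≠ z := by
        intro h
        apply hk
        apply hinj
        rw [h, h0]
      have e : ∀ j, s (pat π i j) * s (pat π k j) = - s (pat π i j) +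
          (if j = z then 2 * s (pat π i z) else 0) +
          (if j = π k then 2 * s (pat π i (π k)) else 0) := by
        intro j
        rw [f1 k hk j]
        by_cases hj : j = z
        · rw [if_pos hj, if_pos hj, if_neg (fun h => hπk (h.symm.trans hj)),
            if_neg (fun h => hπk (h.symm.trans hj)), hj]
          ring
        · rw [if_neg hj, if_neg hj]
          by_cases hj2 : j = π k
          · rw [if_pos hj2, if_pos hj2, hj2]
            ring
          · rw [if_neg hj2, if_neg hj2]
            ring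
      simp only [e, Finset.sum_add_distrib, Finset.sum_neg_distrib, rowsum i hi,
        Finset.sum_ite_eq', Finset.mem_univ, if_true]
      have e1 : s (pat π i z) = 1 := by
        have : pat π i z = true := by simp [pat, hz]
        rw [this]
        rfl
      rw [e1, f1 i hi, if_neg hπk]
      by_cases hik : i = k
      · rw [if_pos hik, if_pos (by rw [hik])]
        decide
      · rw [if_neg hik, if_neg (fun h => hik (hinj _ _ h).symm)]
        decide

theorem pat_symm {v : ℕ} (π : Fin v → Fin v) (hπ : ∀ i, π (π i) = i) (i j : Fin v) :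
    pat π i j = pat π j i := by
  unfold pat
  rw [decide_eq_decide]
  have : π i = j ↔ π j = i := by
    constructor
    · intro h; rw [← h, hπ]
    · intro h; rw [← h, hπ]
  rw [this]
  tauto

theorem charR0 : ringChar R0 = 3 := by
  have : CharP R0 3 := inferInstance
  exact ringChar.eq R0 3

theorem K_gbh (n w : ℕ) (hn : n % 3 = 2) (hw : 1 ≤ w) :
    IsGBH (⊤ : Subgroup R0ˣ) (Kmat (2 * n) w) := by
  have hv : ((2 * n : ℕ) : ZMod 3) = 1 := by
    have h1 : (2 * n) % 3 = 1 := by omega
    have : ((2 * n : ℕ) : ZMod 3) = (((2 * n) % 3 : ℕ) : ZMod 3) := by simp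
    rw [this, h1]
    rfl
  have hv0 : 0 < 2 * n := by omega
  have hid := ortho hv hv0 id (fun _ => rfl) rfl
  have hin := ortho hv hv0 (inv w) (inv_inv w) (by
    unfold inv
    rw [if_neg (by simp only; omega)])
  have hvR : ((2 * n : ℕ) : R0) = 1 := by
    apply Prod.ext
    · rw [Prod.fst_natCast]; exact hv
    · rw [Prod.snd_natCast]; exact hv
  have key : ∀ i k : Fin (2 * n), ∑ j, ((Kmat (2 * n) w i j : R0ˣ) : R0) *
      (((Kmat (2 * n) w k j)⁻¹ : R0ˣ) : R0) = if i = k then 1 else 0 := by
    intro i k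
    have e : ∀ j, ((Kmat (2 * n) w i j : R0ˣ) : R0) * (((Kmat (2 * n) w k j)⁻¹ : R0ˣ) : R0) =
        (s (pat id i j) * s (pat id k j), s (pat (inv w) i j) * s (pat (inv w) k j)) :=
      fun j => rfl
    simp only [e]
    apply Prod.ext
    · rw [Prod.fst_sum]
      simp only [hid]
      split_ifs <;> rfl
    · rw [Prod.snd_sum]
      simp only [hin]
      split_ifs <;> rfl
  have hsymm : ∀ i j, Kmat (2 * n) w i j = Kmat (2 * n) w j i := by
    intro i j
    unfold Kmat
    simp only [Matrix.of_apply]
    rw [pat_symm id (fun _ => rfl) i j, pat_symm (inv w) (inv_inv w) i j]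
  refine ⟨by omega, ?_, fun _ _ => Subgroup.mem_top _, ?_, ?_⟩
  · rw [charR0]
    omega
  · ext1 i k
    rw [Matrix.mul_apply]
    simp only [toR, conjInv, Matrix.of_apply, Matrix.smul_apply, Matrix.one_apply, hvR,
      smul_eq_mul, one_mul]
    exact key i k
  · ext1 i k
    rw [Matrix.mul_apply]
    simp only [toR, conjInv, Matrix.of_apply, Matrix.smul_apply, Matrix.one_apply, hvR,
      smul_eq_mul, one_mul]
    have : ∀ j, (((Kmat (2 * n) w j i)⁻¹ : R0ˣ) : R0) * ((Kmat (2 * n) w j k : R0ˣ) : R0) =
        ((Kmat (2 * n) w k j : R0ˣ) : R0) * (((Kmat (2 * n) w i j)⁻¹ : R0ˣ) : R0) := by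
      intro j
      rw [hsymm j i, hsymm j k, mul_comm]
    simp only [this]
    rw [key k i]
    by_cases h : i = k
    · rw [if_pos h, if_pos h.symm]
    · rw [if_neg h, if_neg (fun h' => h h'.symm)]

theorem K_norm (v w : ℕ) : IsNormalised (Kmat v w) := by
  intro i j h
  unfold Kmat
  rw [Matrix.of_apply, u_one_iff]
  unfold pat
  simp only [decide_eq_true_eq]
  tauto

/-- a fully `±1` entry pattern outside the middle block -/
theorem K_pm (v w : ℕ) (i j : Fin v)
    (h : ¬ (w ≤ i.val ∧ i.val < v - w) ∨ ¬ (w ≤ j.val ∧ j.val < v - w)) :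
    Kmat v w i j = 1 ∨ Kmat v w i j = -1 := by
  unfold Kmat
  rw [Matrix.of_apply, u_one_iff, u_neg_iff]
  have : pat id i j = pat (inv w) i j := by
    unfold pat
    rw [decide_eq_decide]
    have : id i = j ↔ inv w i = j := by
      rcases h with h | h
      · have : inv w i = i := by unfold inv; rw [if_neg h]
        rw [this]
        rfl
      · have : inv w j = j := by unfold inv; rw [if_neg h]
        rw [inv_eq_iff, this]
        rfl
    rw [this]
  rw [← this]
  cases pat id i j <;> simp

theorem K_form (n w m : ℕ) (hm : m ≤ w) (hw : 2 * w ≤ 2 * n) : HasForm (Kmat (2 * n) w) m := by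
  refine ⟨Equiv.refl _, Equiv.refl _, K_norm _ _, ?_⟩
  intro i j h
  apply K_pm
  simp only [Equiv.refl_apply]
  omega

/-- rows in the middle block are not entirely `±1` -/
theorem K_row (n w : ℕ) (hw : 1 ≤ w) (i : Fin (2 * n))
    (h : ∀ j, Kmat (2 * n) w i j = 1 ∨ Kmat (2 * n) w i j = -1) :
    i.val < w ∨ 2 * n - w ≤ i.val := by
  by_contra hcon
  push Not at hcon
  have h1 := h i
  unfold Kmat at h1
  rw [Matrix.of_apply, u_one_iff, u_neg_iff] at h1
  have p1 : pat id i i = true := by
    simp [pat]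
  have p2 : pat (inv w) i i = false := by
    simp only [pat, decide_eq_false_iff_not]
    rintro (h | h | h)
    · omega
    · omega
    · unfold inv at h
      rw [if_pos ⟨hcon.1, hcon.2⟩, Fin.ext_iff] at h
      simp only at h
      omega
  rw [p1, p2] at h1
  simp at h1

theorem card_ends (v m : ℕ) (hm : 2 * m ≤ v) :
    (Finset.univ.filter (fun i : Fin v => i.val < m ∨ v - m ≤ i.val)).card = 2 * m := by
  have h1 : (Finset.univ.filter (fun i : Fin v => i.val < m ∨ v - m ≤ i.val)).card =
      ((Finset.range v).filter (fun i => i < m ∨ v - m ≤ i)).card := by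
    apply Finset.card_bij (fun i _ => i.val)
    · intro i hi
      simp only [Finset.mem_filter, Finset.mem_univ, true_and] at hi
      simp only [Finset.mem_filter, Finset.mem_range]
      exact ⟨i.2, hi⟩
    · intro a _ b _ h
      exact Fin.ext h
    · intro b hb
      simp only [Finset.mem_filter, Finset.mem_range] at hb
      exact ⟨⟨b, hb.1⟩, by simp only [Finset.mem_filter, Finset.mem_univ, true_and]; exact hb.2,
        rfl⟩
  have h2 : (Finset.range v).filter (fun i => i < m ∨ v - m ≤ i) =
      (Finset.range m) ∪ (Finset.Ico (v - m) v) := by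
    ext i
    simp only [Finset.mem_filter, Finset.mem_range, Finset.mem_union, Finset.mem_Ico]
    omega
  rw [h1, h2, Finset.card_union_of_disjoint, Finset.card_range, Nat.card_Ico]
  · omega
  · rw [Finset.disjoint_left]
    intro a ha hb
    simp only [Finset.mem_range] at ha
    simp only [Finset.mem_Ico] at hb
    omega

theorem K_width (n w : ℕ) (hw : 1 ≤ w) (hwn : w ≤ n) : IsWidth (Kmat (2 * n) w) w := by
  constructor
  · exact ⟨hw, by omega, K_form n w w le_rfl (by omega)⟩
  · rintro m ⟨_, hm2, σ, τ, _, h⟩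
    have h1 : (Finset.univ.filter (fun i : Fin (2 * n) => i.val < m ∨ 2 * n - m ≤ i.val)).card ≤
        (Finset.univ.filter (fun i : Fin (2 * n) => i.val < w ∨ 2 * n - w ≤ i.val)).card := by
      apply Finset.card_le_card_of_injOn σ
      · intro i hi
        simp only [Finset.coe_filter, Finset.mem_univ, true_and, Set.mem_setOf_eq] at hi ⊢
        apply K_row n w hw
        intro j
        have := h i (τ.symm j) (by tauto)
        rwa [Equiv.apply_symm_apply] at this
      · intro a _ b _ hab
        exact σ.injective hab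
    rw [card_ends _ _ hm2, card_ends _ _ (by omega)] at h1
    omega

/-- entries equal to one in a row other than the first -/
theorem K_ones (v w : ℕ) (i j : Fin v) (hi : i.val ≠ 0) (h : Kmat v w i j = 1) :
    j.val = 0 ∨ j = i := by
  unfold Kmat at h
  rw [Matrix.of_apply, u_one_iff] at h
  have := h.1
  simp only [pat, decide_eq_true_eq, id] at this
  rcases this with h | h | h
  · exact absurd h hi
  · exact Or.inl h
  · exact Or.inr h.symm

theorem K_primary (n w : ℕ) (hn : 3 ≤ n) : IsPrimary (⊤ : Subgroup R0ˣ) (Kmat (2 * n) w) := by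
  classical
  rintro ⟨v₁, v₂, K₁, K₂, σ, τ, ⟨⟨hv1, -⟩, hn1, -⟩, ⟨⟨hv2, -⟩, hn2, -⟩, h⟩
  have hcard : 2 * n = v₁ * v₂ := by
    have := Fintype.card_congr σ
    simpa using this
  set z : Fin (2 * n) := ⟨0, by omega⟩ with hz
  -- sets of ones are small
  have hsmall : ∀ i : Fin (2 * n), i.val ≠ 0 → ∀ S : Finset (Fin (2 * n)),
      (∀ j ∈ S, Kmat (2 * n) w i j = 1) → S.card ≤ 2 := by
    intro i hi S hS
    have hsub : S ⊆ {z, i} := by
      intro j hj
      rcases K_ones _ _ i j hi (hS j hj) with h | h
      · have : j = z := Fin.ext h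
        simp [this]
      · simp [h]
    exact (Finset.card_le_card hsub).trans Finset.card_le_two
  have hone : ∀ i, Kmat (2 * n) w i z = 1 := fun i => K_norm _ _ i z (Or.inr rfl)
  have b1 : v₁ ≤ 2 := by
    obtain ⟨b, hb⟩ : ∃ b : Fin v₂, (σ.symm (⟨0, by omega⟩, b)).val ≠ 0 := by
      by_contra hcon
      push Not at hcon
      have h1 := hcon ⟨0, by omega⟩
      have h2 := hcon ⟨1, by omega⟩
      have h3 := σ.symm.injective (Fin.ext (h1.trans h2.symm))
      simp at h3
    set i := σ.symm (⟨0, by omega⟩, b) with hi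
    have hσi : σ i = (⟨0, by omega⟩, b) := by rw [hi, Equiv.apply_symm_apply]
    have hrow : ∀ j, Kmat (2 * n) w i j = K₂ b (τ j).2 := by
      intro j
      rw [h, hσi]
      simp only
      rw [hn1 _ _ (Or.inl rfl), one_mul]
    have h1 := hsmall i hb (Finset.univ.image (fun a : Fin v₁ => τ.symm (a, (τ z).2))) (by
      intro j hj
      rw [Finset.mem_image] at hj
      obtain ⟨a, -, rfl⟩ := hj
      rw [hrow, Equiv.apply_symm_apply, ← hrow z, hone])
    rw [Finset.card_image_of_injective, Finset.card_univ, Fintype.card_fin] at h1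
    · exact h1
    · intro a b hab
      exact (Prod.mk.inj (τ.symm.injective hab)).1
  have b2 : v₂ ≤ 2 := by
    obtain ⟨a, ha⟩ : ∃ a : Fin v₁, (σ.symm (a, ⟨0, by omega⟩)).val ≠ 0 := by
      by_contra hcon
      push Not at hcon
      have h1 := hcon ⟨0, by omega⟩
      have h2 := hcon ⟨1, by omega⟩
      have h3 := σ.symm.injective (Fin.ext (h1.trans h2.symm))
      simp at h3
    set i := σ.symm (a, ⟨0, by omega⟩) with hi
    have hσi : σ i = (a, ⟨0, by omega⟩) := by rw [hi, Equiv.apply_symm_apply]
    have hrow : ∀ j, Kmat (2 * n) w i j = K₁ a (τ j).1 := by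
      intro j
      rw [h, hσi]
      simp only
      rw [hn2 _ _ (Or.inl rfl), mul_one]
    have h1 := hsmall i ha (Finset.univ.image (fun b : Fin v₂ => τ.symm ((τ z).1, b))) (by
      intro j hj
      rw [Finset.mem_image] at hj
      obtain ⟨a, -, rfl⟩ := hj
      rw [hrow, Equiv.apply_symm_apply, ← hrow z, hone])
    rw [Finset.card_image_of_injective, Finset.card_univ, Fintype.card_fin] at h1
    · exact h1
    · intro a b hab
      exact (Prod.mk.inj (τ.symm.injective hab)).2
  have : v₁ * v₂ ≤ 2 * 2 := Nat.mul_le_mul b1 b2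
  omega

/-- Some pair `(R, N)` has property (F). -/
theorem result : ∃ (R : Type) (_ : Ring R) (N : Subgroup Rˣ), PropertyF R N := by
  refine ⟨R0, inferInstance, ⊤, ?_⟩
  apply Set.infinite_of_injective_forall_mem (f := fun t : ℕ => 6 * t + 5)
  · intro a b h
    simp only at h
    omega
  · intro t w hw
    have hodd : Odd (6 * t + 5) := ⟨3 * t + 2, by ring⟩
    obtain ⟨h1, -, h2⟩ := hw
    have h3 := h2 hodd
    refine ⟨Kmat (2 * (6 * t + 5)) w, ⟨K_gbh _ _ (by omega) h1, K_norm _ _,
      K_form _ _ 1 h1 (by omega)⟩, K_primary _ _ (by omega), K_width _ _ h1 (by omega)⟩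

end Pool.Agent.Results.MP_522cd8_co.AllWidths
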